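import Mathlib

/-! # Kobayashi distance on Reinhardt domains: definitions and the exhaustion function -/

namespace Pool.Agent.X106.RK

open Metric Set Filter Topology

/-- `ℂ^n` with its Euclidean norm. -/
abbrev Cn (n : ℕ) := EuclideanSpace ℂ (Fin n)

/-- The Poincare distance of the unit disc, normalised so that the distance of `0` and `r` is
`artanh r = (1/2) log ((1 + r) / (1 - r))`. -/
noncomputable def poincare (a b : ℂ) : ℝ :=
  1 / 2 * Real.log ((1 + ‖(a - b) / (1 - (starRingEnd ℂ) b * a)‖) /
    (1 - ‖(a - b) / (1 - (starRingEnd ℂ) b * a)‖))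

/-- A Reinhardt domain: open, connected (in particular nonempty), invariant under rotations of
the coordinates. -/
def IsReinhardtDomain {n : ℕ} (D : Set (Cn n)) : Prop :=
  IsOpen D ∧ IsConnected D ∧ ∀ z ∈ D, ∀ c : Fin n → ℂ, (∀ j, ‖c j‖ = 1) →
    (WithLp.toLp 2 (fun j => c j * z j) : Cn n) ∈ D

/-- Pseudoconvexity: there is a continuous plurisubharmonic exhaustion function. -/
def IsPseudoconvex {n : ℕ} (D : Set (Cn n)) : Prop :=
  ∃ u : Cn n → ℝ, ContinuousOn u D ∧
    (∀ z w : Cn n, (∀ s : ℂ, ‖s‖ ≤ 1 → z + s • w ∈ D) →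
      u z ≤ Real.circleAverage (fun s : ℂ => u (z + s • w)) 0 1) ∧
    ∀ c : ℝ, IsCompact {z | z ∈ D ∧ u z ≤ c}

/-- A holomorphic disc in `D`. -/
def IsDisc {n : ℕ} (D : Set (Cn n)) (f : ℂ → Cn n) : Prop :=
  DifferentiableOn ℂ f (ball 0 1) ∧ MapsTo f (ball 0 1) D

/-- The sums of Poincare distances over the finite chains of holomorphic discs in `D` which join
`x` to `y`. -/
def chainSums {n : ℕ} (D : Set (Cn n)) (x y : Cn n) : Set ℝ :=
  {s | ∃ (N : ℕ) (q : ℕ → Cn n) (f : ℕ → ℂ → Cn n) (a b : ℕ → ℂ), q 0 = x ∧ q N = y ∧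
    (∀ j < N, IsDisc D (f j) ∧ ‖a j‖ < 1 ∧ ‖b j‖ < 1 ∧ f j (a j) = q j ∧ f j (b j) = q (j + 1)) ∧
    s = ∑ j ∈ Finset.range N, poincare (a j) (b j)}

/-- The Kobayashi pseudodistance: the infimum of the chain sums. -/
noncomputable def kobayashi {n : ℕ} (D : Set (Cn n)) (x y : Cn n) : ℝ := sInf (chainSums D x y)

lemma ratio_lt_one {a b : ℂ} (ha : ‖a‖ < 1) (hb : ‖b‖ < 1) :
    ‖(a - b) / (1 - (starRingEnd ℂ) b * a)‖ < 1 := by
  have hne : (1 - (starRingEnd ℂ) b * a) ≠ 0 := by
    intro h
    have h1 : (starRingEnd ℂ) b * a = 1 := by linear_combination -h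
    have h2 : ‖(starRingEnd ℂ) b * a‖ = 1 := by rw [h1]; simp
    rw [norm_mul, RCLike.norm_conj] at h2
    nlinarith [norm_nonneg a, norm_nonneg b]
  rw [norm_div, div_lt_one (norm_pos_iff.mpr hne)]
  have h2 : ‖a - b‖ ^ 2 < ‖1 - (starRingEnd ℂ) b * a‖ ^ 2 := by
    have ea : ‖a‖ ^ 2 < 1 := by nlinarith [norm_nonneg a]
    have eb : ‖b‖ ^ 2 < 1 := by nlinarith [norm_nonneg b]
    have key : ‖1 - (starRingEnd ℂ) b * a‖ ^ 2 - ‖a - b‖ ^ 2 = (1 - ‖a‖ ^ 2) * (1 - ‖b‖ ^ 2) := by
      rw [← Complex.normSq_eq_norm_sq, ← Complex.normSq_eq_norm_sq, ← Complex.normSq_eq_norm_sq,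
        ← Complex.normSq_eq_norm_sq]
      simp only [Complex.normSq_apply, Complex.sub_re, Complex.sub_im, Complex.one_re,
        Complex.one_im, Complex.mul_re, Complex.mul_im, Complex.conj_re, Complex.conj_im]
      ring
    nlinarith [mul_pos (sub_pos.mpr ea) (sub_pos.mpr eb)]
  exact lt_of_pow_lt_pow_left₀ 2 (norm_nonneg _) h2

lemma poincare_nonneg {a b : ℂ} (ha : ‖a‖ < 1) (hb : ‖b‖ < 1) : 0 ≤ poincare a b := by
  unfold poincare
  have h := ratio_lt_one ha hb
  have h0 : 0 ≤ ‖(a - b) / (1 - (starRingEnd ℂ) b * a)‖ := norm_nonneg _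
  set r := ‖(a - b) / (1 - (starRingEnd ℂ) b * a)‖
  have : 1 ≤ (1 + r) / (1 - r) := by
    rw [le_div_iff₀ (by linarith)]; linarith
  have := Real.log_nonneg this
  positivity

lemma chainSums_bddBelow {n : ℕ} (D : Set (Cn n)) (x y : Cn n) : BddBelow (chainSums D x y) := by
  refine ⟨0, ?_⟩
  rintro s ⟨N, q, f, a, b, -, -, h, rfl⟩
  refine Finset.sum_nonneg fun j hj => ?_
  obtain ⟨-, ha, hb, -, -⟩ := h j (Finset.mem_range.mp hj)
  exact poincare_nonneg ha hb

lemma kobayashi_le {n : ℕ} {D : Set (Cn n)} {x y : Cn n} {s : ℝ} (h : s ∈ chainSums D x y) :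
    kobayashi D x y ≤ s := csInf_le (chainSums_bddBelow D x y) h

lemma poincare_zero (r : ℝ) (h0 : 0 ≤ r) : poincare 0 (r : ℂ) =
    1 / 2 * Real.log ((1 + r) / (1 - r)) := by
  unfold poincare
  simp [abs_of_nonneg h0]

/-- A Reinhardt type domain given by a family of entire functions is pseudoconvex. -/
theorem pseudoconvex_of_family {n : ℕ} {ι : Type} [Nonempty ι] (h : ι → Cn n → ℂ)
    (hd : ∀ i, Differentiable ℂ (h i)) (D : Set (Cn n)) (hD : D = {z | ∀ i, ‖h i z‖ < 1})
    (heq : ∀ z ∈ D, ∀ ε : ℝ, 0 < ε → ∀ᶠ y in 𝓝 z, ∀ i, |‖h i y‖ - ‖h i z‖| ≤ ε)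
    (hsup : ∀ z ∈ D, ∃ q < 1, ∀ i, ‖h i z‖ ≤ q)
    (hb : Bornology.IsBounded D) : IsPseudoconvex D := by
  classical
  have hbdd : ∀ z ∈ D, BddAbove (range fun i => ‖h i z‖) := by
    intro z hz
    refine ⟨1, ?_⟩
    rintro _ ⟨i, rfl⟩
    rw [hD] at hz
    exact (hz i).le
  set v : Cn n → ℝ := fun z => ⨆ i, ‖h i z‖ with hv
  have hle : ∀ z ∈ D, ∀ i, ‖h i z‖ ≤ v z := fun z hz i => le_ciSup (hbdd z hz) i
  have hv1 : ∀ z ∈ D, v z < 1 := by
    intro z hz
    obtain ⟨q, hq, hq'⟩ := hsup z hz
    exact lt_of_le_of_lt (ciSup_le hq') hq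
  have hv0 : ∀ z ∈ D, 0 ≤ v z := by
    intro z hz
    obtain ⟨i⟩ := (inferInstance : Nonempty ι)
    exact (norm_nonneg _).trans (hle z hz i)
  have hopen : IsOpen D := by
    rw [isOpen_iff_mem_nhds]
    intro z hz
    obtain ⟨q, hq, hq'⟩ := hsup z hz
    filter_upwards [heq z hz ((1 - q) / 2) (by linarith)] with y hy
    rw [hD]
    intro i
    have h1 := hy i
    rw [abs_le] at h1
    linarith [hq' i, h1.2]
  have hcont : ContinuousOn v D := by
    intro z hz
    refine ContinuousAt.continuousWithinAt ?_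
    rw [Metric.continuousAt_iff']
    intro ε hε
    filter_upwards [heq z hz (ε / 2) (by linarith), hopen.mem_nhds hz] with y hy hyD
    rw [Real.dist_eq]
    have h1 : v y ≤ v z + ε / 2 := by
      refine ciSup_le fun i => ?_
      have h1 := hy i
      rw [abs_le] at h1
      linarith [hle z hz i, h1.2]
    have h2 : v z ≤ v y + ε / 2 := by
      refine ciSup_le fun i => ?_
      have h1 := hy i
      rw [abs_le] at h1
      linarith [hle y hyD i, h1.1]
    rw [abs_lt]
    constructor <;> linarith
  have hucont : ContinuousOn (fun z => 1 / (1 - v z)) D := by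
    refine ContinuousOn.div continuousOn_const (continuousOn_const.sub hcont) ?_
    intro z hz
    have := hv1 z hz
    linarith
  refine ⟨fun z => 1 / (1 - v z), hucont, ?_, ?_⟩
  · intro z w hzw
    have hzD : z ∈ D := by simpa using hzw 0 (by simp)
    have hmem : ∀ s ∈ closedBall (0 : ℂ) 1, z + s • w ∈ D := fun s hs => hzw s (by simpa using hs)
    have hline : Continuous fun s : ℂ => z + s • w := by fun_prop
    have hint : CircleIntegrable (fun s : ℂ => 1 / (1 - v (z + s • w))) 0 1 := by
      refine ContinuousOn.circleIntegrable zero_le_one ?_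
      exact hucont.comp hline.continuousOn (fun s hs => hmem s (sphere_subset_closedBall hs))
    set M := Real.circleAverage (fun s : ℂ => 1 / (1 - v (z + s • w))) 0 1 with hM
    have key : ∀ i, 1 / (1 - ‖h i z‖) ≤ M := by
      intro i
      -- unimodular factor
      obtain ⟨c, hc1, hc2⟩ : ∃ c : ℂ, ‖c‖ = 1 ∧ c * h i z = (‖h i z‖ : ℂ) := by
        by_cases h0 : h i z = 0
        · exact ⟨1, by simp, by simp [h0]⟩
        · refine ⟨(‖h i z‖ : ℂ) / h i z, ?_, ?_⟩
          · rw [norm_div]; simp [h0]
          · field_simp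
      have hlt : ∀ s ∈ closedBall (0 : ℂ) 1, ‖c * h i (z + s • w)‖ < 1 := by
        intro s hs
        rw [norm_mul, hc1, one_mul]
        exact lt_of_le_of_lt (hle _ (hmem s hs) i) (hv1 _ (hmem s hs))
      have hne : ∀ s ∈ closedBall (0 : ℂ) 1, (1 : ℂ) - c * h i (z + s • w) ≠ 0 := by
        intro s hs h0
        have := hlt s hs
        have h1 : c * h i (z + s • w) = 1 := by linear_combination -h0
        rw [h1] at this
        simp at this
      set H : ℂ → ℂ := fun s => 1 / (1 - c * h i (z + s • w)) with hH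
      have hdiff : Differentiable ℂ fun s : ℂ => c * h i (z + s • w) := by
        have h1 : Differentiable ℂ fun s : ℂ => z + s • w := by fun_prop
        exact ((hd i).comp h1).const_mul c
      have hHd : DifferentiableOn ℂ H (closedBall 0 1) := by
        intro s hs
        refine DifferentiableAt.differentiableWithinAt ?_
        exact (differentiableAt_const _).div ((differentiableAt_const _).sub (hdiff s)) (hne s hs)
      have hHc : DiffContOnCl ℂ H (ball 0 |1|) := by
        rw [abs_one]
        refine ⟨hHd.mono ball_subset_closedBall, ?_⟩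
        rw [closure_ball _ one_ne_zero]
        exact hHd.continuousOn
      have hav := DiffContOnCl.circleAverage hHc
      have hH0 : ‖H 0‖ = 1 / (1 - ‖h i z‖) := by
        simp only [hH, zero_smul, add_zero, hc2]
        have h1 : (1 : ℂ) / (1 - (‖h i z‖ : ℂ)) = ((1 / (1 - ‖h i z‖) : ℝ) : ℂ) := by
          push_cast; rfl
        rw [h1, Complex.norm_real, Real.norm_eq_abs, abs_of_nonneg]
        have := hv1 z hzD
        have := hle z hzD i
        exact div_nonneg zero_le_one (by linarith)
      have hHn : CircleIntegrable (fun s => ‖H s‖) 0 1 := by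
        refine ContinuousOn.circleIntegrable zero_le_one ?_
        exact (hHd.continuousOn.mono sphere_subset_closedBall).norm
      have h1 : ‖Real.circleAverage H 0 1‖ ≤ Real.circleAverage (fun s => ‖H s‖) 0 1 := by
        rw [Real.circleAverage_def, Real.circleAverage_def, norm_smul, smul_eq_mul]
        have : ‖(2 * Real.pi)⁻¹‖ = (2 * Real.pi)⁻¹ := by
          rw [Real.norm_eq_abs, abs_of_pos]; positivity
        rw [this]
        refine mul_le_mul_of_nonneg_left ?_ (by positivity)
        exact intervalIntegral.norm_integral_le_integral_norm (by positivity)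
      have h2 : Real.circleAverage (fun s => ‖H s‖) 0 1 ≤ M := by
        refine Real.circleAverage_mono hHn hint ?_
        intro s hs
        rw [abs_one] at hs
        have hs' := sphere_subset_closedBall hs
        simp only [hH]
        rw [norm_div, norm_one]
        have h3 := hv1 _ (hmem s hs')
        refine one_div_le_one_div_of_le (by linarith) ?_
        have h4 : ‖c * h i (z + s • w)‖ ≤ v (z + s • w) := by
          rw [norm_mul, hc1, one_mul]; exact hle _ (hmem s hs') i
        have h5 := norm_sub_norm_le (1 : ℂ) (c * h i (z + s • w))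
        rw [norm_one] at h5
        linarith
      rw [← hH0, ← hav]
      exact h1.trans h2
    have hMpos : 0 < M := by
      obtain ⟨i⟩ := (inferInstance : Nonempty ι)
      refine lt_of_lt_of_le ?_ (key i)
      have := hv1 z hzD
      have := hle z hzD i
      exact div_pos one_pos (by linarith)
    have hvle : v z ≤ 1 - 1 / M := by
      refine ciSup_le fun i => ?_
      have h1 := key i
      have h2 : 0 < 1 - ‖h i z‖ := by
        have := hv1 z hzD
        have := hle z hzD i
        linarith
      rw [div_le_iff₀ h2] at h1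
      have h3 : 1 / M ≤ 1 - ‖h i z‖ := by
        rw [div_le_iff₀ hMpos]; linarith
      linarith
    have h4 : 0 < 1 - v z := by have := hv1 z hzD; linarith
    change 1 / (1 - v z) ≤ M
    rw [div_le_iff₀ h4]
    have : 1 / M ≤ 1 - v z := by linarith
    rw [div_le_iff₀ hMpos] at this
    linarith
  · intro c
    by_cases hc : c ≤ 0
    · convert isCompact_empty
      ext z
      simp only [mem_ofPred_eq, mem_empty_iff_false, iff_false, not_and, not_le]
      intro hz
      have h4 : 0 < 1 - v z := by have := hv1 z hz; linarith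
      exact lt_of_le_of_lt hc (div_pos one_pos h4)
    · push Not at hc
      have hset : {z | z ∈ D ∧ 1 / (1 - v z) ≤ c} = {z | ∀ i, ‖h i z‖ ≤ 1 - 1 / c} := by
        ext z
        simp only [mem_ofPred_eq]
        constructor
        · rintro ⟨hz, h1⟩ i
          have h4 : 0 < 1 - v z := by have := hv1 z hz; linarith
          rw [div_le_iff₀ h4] at h1
          have : 1 / c ≤ 1 - v z := by rw [div_le_iff₀ hc]; linarith
          linarith [hle z hz i]
        · intro h1
          have hc' : 0 < 1 / c := by positivity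
          have hz : z ∈ D := by
            rw [hD]; intro i
            linarith [h1 i]
          refine ⟨hz, ?_⟩
          have h2 : v z ≤ 1 - 1 / c := ciSup_le h1
          have h4 : 0 < 1 - v z := by have := hv1 z hz; linarith
          rw [div_le_iff₀ h4]
          have : 1 / c ≤ 1 - v z := by linarith
          rw [div_le_iff₀ hc] at this
          linarith
      rw [hset]
      refine Metric.isCompact_of_isClosed_isBounded ?_ ?_
      · rw [ofPred_forall]
        exact isClosed_iInter fun i => isClosed_le ((hd i).continuous.norm) continuous_const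
      · rw [← hset]
        exact hb.subset fun z hz => hz.1

end Pool.Agent.X106.RK
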