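import Pool.Agent.X106.RK.Dom

/-! # The discs and the estimate -/

namespace Pool.Agent.X106.RK

open Metric Set Filter Topology

variable {n : ℕ} (i0 i1 i2 : Fin n)

/-- the point with coordinates `a, b, c` at `i0, i1, i2` and `d` elsewhere -/
def pt (a b c d : ℂ) : Cn n :=
  WithLp.toLp 2 (fun j => if j = i0 then a else if j = i1 then b else if j = i2 then c else d)

lemma pt_apply (a b c d : ℂ) (j : Fin n) : pt i0 i1 i2 a b c d j =
    if j = i0 then a else if j = i1 then b else if j = i2 then c else d := rfl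

variable {i0 i1 i2} (h01 : i0 ≠ i1) (h02 : i0 ≠ i2) (h12 : i1 ≠ i2)

lemma pt_tendsto {α : Type} {l : Filter α} {a b c d : α → ℂ} {a' b' c' d' : ℂ}
    (ha : Tendsto a l (𝓝 a')) (hb : Tendsto b l (𝓝 b')) (hc : Tendsto c l (𝓝 c'))
    (hd : Tendsto d l (𝓝 d')) :
    Tendsto (fun x => pt i0 i1 i2 (a x) (b x) (c x) (d x)) l (𝓝 (pt i0 i1 i2 a' b' c' d')) := by
  refine ((PiLp.continuous_toLp 2 _).tendsto _).comp ?_
  refine tendsto_pi_nhds.mpr fun j => ?_
  by_cases h0 : j = i0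
  · simpa only [if_pos h0] using ha
  · by_cases h1 : j = i1
    · simpa only [if_neg h0, if_pos h1] using hb
    · by_cases h2 : j = i2
      · simpa only [if_neg h0, if_neg h1, if_pos h2] using hc
      · simpa only [if_neg h0, if_neg h1, if_neg h2] using hd

lemma pt_diff {a b c d : ℂ → ℂ} {s : Set ℂ}
    (ha : DifferentiableOn ℂ a s) (hb : DifferentiableOn ℂ b s) (hc : DifferentiableOn ℂ c s)
    (hd : DifferentiableOn ℂ d s) :
    DifferentiableOn ℂ (fun x => pt i0 i1 i2 (a x) (b x) (c x) (d x)) s := by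
  rw [differentiableOn_euclidean]
  intro j
  by_cases h0 : j = i0
  · simpa only [pt_apply, if_pos h0] using ha
  · by_cases h1 : j = i1
    · simpa only [pt_apply, if_neg h0, if_pos h1] using hb
    · by_cases h2 : j = i2
      · simpa only [pt_apply, if_neg h0, if_neg h1, if_pos h2] using hc
      · simpa only [pt_apply, if_neg h0, if_neg h1, if_neg h2] using hd

include h01 h02 h12 in
lemma pt_mem {a b c d : ℂ} (hc1 : ‖c‖ < 1) (ha : ‖a‖ < Real.exp 3) (hb : ‖b‖ < Real.exp 3)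
    (hd : ‖d‖ < Real.exp 3)
    (h : ∀ k : ℕ, ‖a‖ * ‖b‖ ^ (2 * k) * ‖c‖ ^ (k ^ 2) < Real.exp 1) :
    pt i0 i1 i2 a b c d ∈ Dom i0 i1 i2 := by
  have e0 : pt i0 i1 i2 a b c d i0 = a := by simp [pt_apply]
  have e1 : pt i0 i1 i2 a b c d i1 = b := by simp [pt_apply, h01.symm]
  have e2 : pt i0 i1 i2 a b c d i2 = c := by simp [pt_apply, h02.symm, h12.symm]
  refine ⟨by rwa [e2], fun j => ?_, fun k => ?_⟩
  · rw [pt_apply]
    split_ifs
    · exact ha
    · exact hb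
    · exact lt_trans hc1 (by rw [← Real.exp_zero]; exact Real.exp_lt_exp.mpr (by norm_num))
    · exact hd
  · rw [e0, e1, e2]; exact h k

/-- the function `Λ` -/
noncomputable def Lam (M : ℕ) (s : ℂ) : ℂ := (M : ℂ) * (1 - s) + 1

/-- the second disc -/
noncomputable def disc2 (M : ℕ) (s : ℂ) : Cn n :=
  pt i0 i1 i2 (s * Complex.exp (1 - Lam M s)) (Complex.exp (Lam M s / M))
    (Complex.exp (-Lam M s / (M : ℂ) ^ 2)) 1

lemma lam_re (M : ℕ) (s : ℂ) : (Lam M s).re = M * (1 - s.re) + 1 := by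
  simp [Lam]

lemma re_lt {s : ℂ} (hs : ‖s‖ < 1) : s.re < 1 ∧ -1 < s.re := by
  have h := Complex.abs_re_le_norm s
  rw [abs_le] at h
  constructor <;> linarith [h.1, h.2]

lemma n1 (M : ℕ) (s : ℂ) : ‖s * Complex.exp (1 - Lam M s)‖ = ‖s‖ * Real.exp (1 - (Lam M s).re) := by
  rw [norm_mul, Complex.norm_exp]; simp

lemma n2 (M : ℕ) (s : ℂ) : ‖Complex.exp (Lam M s / M)‖ = Real.exp ((Lam M s).re / M) := by
  rw [Complex.norm_exp, Complex.div_natCast_re]

lemma n3 (M : ℕ) (s : ℂ) :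
    ‖Complex.exp (-Lam M s / (M : ℂ) ^ 2)‖ = Real.exp (-(Lam M s).re / (M : ℝ) ^ 2) := by
  rw [Complex.norm_exp]
  congr 1
  have : ((M : ℂ) ^ 2) = ((M ^ 2 : ℕ) : ℂ) := by push_cast; rfl
  rw [this, Complex.div_natCast_re]
  simp

lemma prodexp {M : ℕ} (hM : 0 < M) (L : ℝ) (k : ℕ) :
    Real.exp (1 - L) * Real.exp (L / M) ^ (2 * k) * Real.exp (-L / (M : ℝ) ^ 2) ^ (k ^ 2) =
      Real.exp (1 - L * (1 - (k : ℝ) / M) ^ 2) := by
  have hM' : (M : ℝ) ≠ 0 := by positivity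
  rw [← Real.exp_nat_mul, ← Real.exp_nat_mul, ← Real.exp_add, ← Real.exp_add]
  congr 1
  push_cast
  field_simp
  ring

include h01 h02 h12 in
lemma disc2_mem {M : ℕ} (hM : 2 ≤ M) {s : ℂ} (hs : ‖s‖ < 1) :
    disc2 (i0 := i0) (i1 := i1) (i2 := i2) M s ∈ Dom i0 i1 i2 := by
  have hM0 : (0 : ℝ) < M := by positivity
  have hM2 : (2 : ℝ) ≤ M := by exact_mod_cast hM
  obtain ⟨hr1, hr2⟩ := re_lt hs
  have hL := lam_re M s
  have hL1 : 1 < (Lam M s).re := by rw [hL]; nlinarith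
  have hL2 : (Lam M s).re < 2 * M + 1 := by rw [hL]; nlinarith
  refine pt_mem h01 h02 h12 ?_ ?_ ?_ ?_ ?_
  · rw [n3, ← Real.exp_zero]
    refine Real.exp_lt_exp.mpr ?_
    exact div_neg_of_neg_of_pos (by linarith) (by positivity)
  · rw [n1]
    calc ‖s‖ * Real.exp (1 - (Lam M s).re) ≤ 1 * Real.exp (1 - (Lam M s).re) := by gcongr
      _ < Real.exp 3 := by rw [one_mul]; exact Real.exp_lt_exp.mpr (by linarith)
  · rw [n2]
    refine Real.exp_lt_exp.mpr ?_
    rw [div_lt_iff₀ hM0]; linarith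
  · rw [norm_one, ← Real.exp_zero]; exact Real.exp_lt_exp.mpr (by norm_num)
  · intro k
    rw [n1, n2, n3, mul_assoc, mul_assoc, ← mul_assoc (Real.exp (1 - (Lam M s).re)),
      prodexp (by omega)]
    have h1 : Real.exp (1 - (Lam M s).re * (1 - (k : ℝ) / M) ^ 2) ≤ Real.exp 1 := by
      refine Real.exp_le_exp.mpr ?_
      have : 0 ≤ (Lam M s).re * (1 - (k : ℝ) / M) ^ 2 := by positivity
      linarith
    calc ‖s‖ * Real.exp (1 - (Lam M s).re * (1 - (k : ℝ) / M) ^ 2) ≤ ‖s‖ * Real.exp 1 := by gcongr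
      _ < 1 * Real.exp 1 := by
        have := Real.exp_pos 1
        nlinarith
      _ = Real.exp 1 := one_mul _

lemma disc2_diff (M : ℕ) (S : Set ℂ) :
    DifferentiableOn ℂ (disc2 (i0 := i0) (i1 := i1) (i2 := i2) M) S := by
  unfold disc2
  have hl : Differentiable ℂ (Lam M) := by unfold Lam; fun_prop
  refine pt_diff ?_ ?_ ?_ (differentiableOn_const _)
  · refine Differentiable.differentiableOn ?_
    exact differentiable_id.mul (((differentiable_const _).sub hl).cexp)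
  · refine Differentiable.differentiableOn ?_
    simp only [div_eq_mul_inv]
    exact (hl.mul_const _).cexp
  · refine Differentiable.differentiableOn ?_
    simp only [div_eq_mul_inv]
    exact (hl.neg.mul_const _).cexp

/-- the first disc, from `0` -/
noncomputable def disc1 (M : ℕ) (s : ℂ) : Cn n :=
  pt i0 i1 i2 0 (s * (Real.exp (((M : ℝ) + 1) / M + (M + 1) / M ^ 2) : ℝ)) s
    (s * (Real.exp (((M : ℝ) + 1) / M ^ 2) : ℝ))

lemma exps {M : ℕ} (hM : 2 ≤ M) : ((M : ℝ) + 1) / M + (M + 1) / M ^ 2 < 3 ∧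
    0 < ((M : ℝ) + 1) / M ^ 2 ∧ ((M : ℝ) + 1) / M ^ 2 ≤ 1 ∧ 1 / (M : ℝ) ≤ (M + 1) / M ^ 2 := by
  have hM2 : (2 : ℝ) ≤ M := by exact_mod_cast hM
  have hM0 : (0 : ℝ) < M := by positivity
  refine ⟨?_, by positivity, ?_, ?_⟩
  · have : ((M : ℝ) + 1) / M + (M + 1) / M ^ 2 = (M + 1) ^ 2 / M ^ 2 := by
      field_simp
    rw [this, div_lt_iff₀ (by positivity)]
    nlinarith
  · rw [div_le_one (by positivity)]; nlinarith
  · rw [div_le_div_iff₀ hM0 (by positivity)]; nlinarith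

include h01 h02 h12 in
lemma disc1_mem {M : ℕ} (hM : 2 ≤ M) {s : ℂ} (hs : ‖s‖ < 1) :
    disc1 (i0 := i0) (i1 := i1) (i2 := i2) M s ∈ Dom i0 i1 i2 := by
  obtain ⟨h1, h2, h3, -⟩ := exps hM
  have hM2 : (2 : ℝ) ≤ M := by exact_mod_cast hM
  refine pt_mem h01 h02 h12 hs (by simpa using Real.exp_pos 3) ?_ ?_ (fun k => ?_)
  · rw [norm_mul, Complex.norm_real, Real.norm_eq_abs, abs_of_pos (Real.exp_pos _)]
    calc ‖s‖ * Real.exp (((M : ℝ) + 1) / M + (M + 1) / M ^ 2)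
        ≤ 1 * Real.exp (((M : ℝ) + 1) / M + (M + 1) / M ^ 2) := by gcongr
      _ < Real.exp 3 := by rw [one_mul]; exact Real.exp_lt_exp.mpr h1
  · rw [norm_mul, Complex.norm_real, Real.norm_eq_abs, abs_of_pos (Real.exp_pos _)]
    calc ‖s‖ * Real.exp (((M : ℝ) + 1) / M ^ 2)
        ≤ 1 * Real.exp (((M : ℝ) + 1) / M ^ 2) := by gcongr
      _ < Real.exp 3 := by rw [one_mul]; exact Real.exp_lt_exp.mpr (by linarith)
  · simpa using Real.exp_pos 1

lemma disc1_diff (M : ℕ) (S : Set ℂ) :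
    DifferentiableOn ℂ (disc1 (i0 := i0) (i1 := i1) (i2 := i2) M) S := by
  unfold disc1
  refine pt_diff (differentiableOn_const _) ?_ differentiableOn_id ?_
  · exact differentiableOn_id.mul_const _
  · exact differentiableOn_id.mul_const _

lemma disc1_zero (M : ℕ) : disc1 (i0 := i0) (i1 := i1) (i2 := i2) M 0 = 0 := by
  ext j
  simp [disc1, pt_apply]

lemma disc1_tau (M : ℕ) (hM : 2 ≤ M) : disc1 (i0 := i0) (i1 := i1) (i2 := i2) M
    ((Real.exp (-(((M : ℝ) + 1) / M ^ 2)) : ℝ) : ℂ) = disc2 (i0 := i0) (i1 := i1) (i2 := i2) M 0 := by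
  unfold disc1 disc2
  have hM0 : (M : ℝ) ≠ 0 := by positivity
  have hM0' : (M : ℂ) ≠ 0 := by exact_mod_cast hM0
  have hL : Lam M 0 = (M : ℂ) + 1 := by simp [Lam]
  rw [hL]
  congr 1
  · simp
  · rw [← Complex.ofReal_mul, ← Real.exp_add]
    have : -(((M : ℝ) + 1) / M ^ 2) + (((M : ℝ) + 1) / M + (M + 1) / M ^ 2) = (M + 1) / M := by ring
    rw [this]
    push_cast
    rfl
  · rw [neg_div]
    push_cast
    rfl
  · rw [← Complex.ofReal_mul, ← Real.exp_add]
    simp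

/-- the parameter `1 - 1/M²` -/
noncomputable def z1 (M : ℕ) : ℝ := 1 - 1 / (M : ℝ) ^ 2

lemma z1_pos {M : ℕ} (hM : 2 ≤ M) : 0 < z1 M ∧ z1 M < 1 := by
  have hM2 : (2 : ℝ) ≤ M := by exact_mod_cast hM
  unfold z1
  have h1 : 1 / (M : ℝ) ^ 2 < 1 := by
    rw [div_lt_one (by positivity)]; nlinarith
  have h2 : 0 < 1 / (M : ℝ) ^ 2 := by positivity
  constructor <;> linarith

lemma lam_z1 {M : ℕ} (hM : 2 ≤ M) : (Lam M (z1 M : ℂ)) = ((1 / (M : ℝ) + 1 : ℝ) : ℂ) := by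
  have hM0 : (M : ℝ) ≠ 0 := by positivity
  have hM0' : (M : ℂ) ≠ 0 := by exact_mod_cast hM0
  unfold Lam z1
  push_cast
  field_simp
  ring

/-- the points `z_M` -/
noncomputable def zz (M : ℕ) : Cn n := disc2 (i0 := i0) (i1 := i1) (i2 := i2) M (z1 M : ℂ)

include h01 h02 h12 in
lemma zz_mem {M : ℕ} (hM : 2 ≤ M) : zz (i0 := i0) (i1 := i1) (i2 := i2) M ∈ Dom i0 i1 i2 := by
  refine disc2_mem h01 h02 h12 hM ?_
  obtain ⟨h1, h2⟩ := z1_pos hM
  rw [Complex.norm_real, Real.norm_eq_abs, abs_of_pos h1]; exact h2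

lemma zz_tendsto : Tendsto (fun m : ℕ => zz (i0 := i0) (i1 := i1) (i2 := i2) (m + 2)) atTop
    (𝓝 (pt i0 i1 i2 1 1 1 1)) := by
  have hN : Tendsto (fun m : ℕ => ((m + 2 : ℕ) : ℝ)) atTop atTop :=
    tendsto_natCast_atTop_atTop.comp (tendsto_add_atTop_nat 2)
  have hinv : Tendsto (fun m : ℕ => 1 / ((m + 2 : ℕ) : ℝ)) atTop (𝓝 0) := by
    have := tendsto_inv_atTop_zero.comp hN
    simpa only [Function.comp_def, one_div] using this
  have hinv2 : Tendsto (fun m : ℕ => 1 / ((m + 2 : ℕ) : ℝ) ^ 2) atTop (𝓝 0) := by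
    have := hinv.pow 2
    simpa [div_pow] using this
  have hz : Tendsto (fun m : ℕ => z1 (m + 2)) atTop (𝓝 1) := by
    unfold z1
    simpa using hinv2.const_sub 1
  have hzc : Tendsto (fun m : ℕ => ((z1 (m + 2) : ℝ) : ℂ)) atTop (𝓝 1) := by
    have := (Complex.continuous_ofReal.tendsto 1).comp hz
    simpa only [Function.comp_def, Complex.ofReal_one] using this
  have hL : Tendsto (fun m : ℕ => Lam (m + 2) (z1 (m + 2) : ℂ)) atTop (𝓝 1) := by
    have h1 : Tendsto (fun m : ℕ => ((1 / ((m + 2 : ℕ) : ℝ) + 1 : ℝ) : ℂ)) atTop (𝓝 1) := by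
      have h2 : Tendsto (fun m : ℕ => (1 / ((m + 2 : ℕ) : ℝ) + 1 : ℝ)) atTop (𝓝 1) := by
        simpa using hinv.add_const 1
      have := (Complex.continuous_ofReal.tendsto 1).comp h2
      simpa only [Function.comp_def, Complex.ofReal_one] using this
    refine h1.congr fun m => ?_
    exact (lam_z1 (by omega)).symm
  have hic : Tendsto (fun m : ℕ => ((m + 2 : ℕ) : ℂ)⁻¹) atTop (𝓝 0) := by
    have := (Complex.continuous_ofReal.tendsto 0).comp hinv
    simpa [Function.comp_def] using this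
  unfold zz disc2
  refine pt_tendsto ?_ ?_ ?_ tendsto_const_nhds
  · have h1 : Tendsto (fun m : ℕ => Complex.exp (1 - Lam (m + 2) (z1 (m + 2) : ℂ))) atTop
        (𝓝 (Complex.exp (1 - 1))) := (Complex.continuous_exp.tendsto _).comp (hL.const_sub 1)
    simpa using hzc.mul h1
  · have h1 : Tendsto (fun m : ℕ => Lam (m + 2) (z1 (m + 2) : ℂ) / ((m + 2 : ℕ) : ℂ)) atTop
        (𝓝 0) := by
      simp only [div_eq_mul_inv]
      simpa using hL.mul hic
    have := (Complex.continuous_exp.tendsto _).comp h1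
    simpa only [Function.comp_def, Complex.exp_zero] using this
  · have h1 : Tendsto (fun m : ℕ => -Lam (m + 2) (z1 (m + 2) : ℂ) / ((m + 2 : ℕ) : ℂ) ^ 2) atTop
        (𝓝 0) := by
      simp only [div_eq_mul_inv, ← inv_pow]
      simpa using hL.neg.mul (hic.pow 2)
    have := (Complex.continuous_exp.tendsto _).comp h1
    simpa only [Function.comp_def, Complex.exp_zero] using this

end Pool.Agent.X106.RK
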