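import Pool.Agent.X106.RK.Defs

/-! # The domain -/

namespace Pool.Agent.X106.RK

open Metric Set Filter Topology

variable {n : ℕ} (i0 i1 i2 : Fin n)

/-- The domain `|z₂| < 1`, `|z_j| < e³`, `|z₀| |z₁|^(2k) |z₂|^(k²) < e` for all `k`. -/
def Dom : Set (Cn n) := {z | ‖z i2‖ < 1 ∧ (∀ j, ‖z j‖ < Real.exp 3) ∧
  ∀ k : ℕ, ‖z i0‖ * ‖z i1‖ ^ (2 * k) * ‖z i2‖ ^ (k ^ 2) < Real.exp 1}

lemma dom_mono {z y : Cn n} (hz : z ∈ Dom i0 i1 i2) (h : ∀ j, ‖y j‖ ≤ ‖z j‖) :
    y ∈ Dom i0 i1 i2 := by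
  refine ⟨(h i2).trans_lt hz.1, fun j => (h j).trans_lt (hz.2.1 j), fun k => ?_⟩
  refine lt_of_le_of_lt ?_ (hz.2.2 k)
  have h0 := h i0
  have h1 := h i1
  have h2 := h i2
  gcongr

/-- the family of functions -/
noncomputable def fam : Option (Fin n ⊕ ℕ) → Cn n → ℂ
  | none => fun z => z i2
  | some (Sum.inl j) => fun z => z j / (Real.exp 3 : ℂ)
  | some (Sum.inr k) => fun z => z i0 * z i1 ^ (2 * k) * z i2 ^ (k ^ 2) / (Real.exp 1 : ℂ)

lemma fam_diff (i : Option (Fin n ⊕ ℕ)) : Differentiable ℂ (fam i0 i1 i2 i) := by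
  have hc : ∀ j : Fin n, Differentiable ℂ fun z : Cn n => z j := fun j =>
    (differentiable_euclidean.mp differentiable_id) j
  match i with
  | none => exact hc i2
  | some (Sum.inl j) =>
    simp only [fam, div_eq_mul_inv]
    exact (hc j).mul_const _
  | some (Sum.inr k) =>
    simp only [fam, div_eq_mul_inv]
    exact (((hc i0).mul ((hc i1).pow _)).mul ((hc i2).pow _)).mul_const _

lemma norm_inl (z : Cn n) (j : Fin n) :
    ‖fam i0 i1 i2 (some (Sum.inl j)) z‖ = ‖z j‖ / Real.exp 3 := by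
  simp only [fam, norm_div, Complex.norm_real, Real.norm_eq_abs, abs_of_pos (Real.exp_pos 3)]

lemma norm_inr (z : Cn n) (k : ℕ) :
    ‖fam i0 i1 i2 (some (Sum.inr k)) z‖ =
      ‖z i0‖ * ‖z i1‖ ^ (2 * k) * ‖z i2‖ ^ (k ^ 2) / Real.exp 1 := by
  simp only [fam, norm_div, norm_mul, norm_pow, Complex.norm_real, Real.norm_eq_abs,
    abs_of_pos (Real.exp_pos 1)]

lemma dom_eq : Dom i0 i1 i2 = {z | ∀ i, ‖fam i0 i1 i2 i z‖ < 1} := by
  ext z
  constructor
  · rintro ⟨h1, h2, h3⟩ i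
    match i with
    | none => exact h1
    | some (Sum.inl j) =>
      rw [norm_inl, div_lt_one (Real.exp_pos 3)]; exact h2 j
    | some (Sum.inr k) =>
      rw [norm_inr, div_lt_one (Real.exp_pos 1)]; exact h3 k
  · intro h
    refine ⟨h none, fun j => ?_, fun k => ?_⟩
    · have := h (some (Sum.inl j))
      rwa [norm_inl, div_lt_one (Real.exp_pos 3)] at this
    · have := h (some (Sum.inr k))
      rwa [norm_inr, div_lt_one (Real.exp_pos 1)] at this

lemma tail_tendsto {r : ℝ} (h0 : 0 ≤ r) (h1 : r < 1) (A B : ℝ) (hA : 0 ≤ A) (hB : 0 ≤ B) :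
    Tendsto (fun k : ℕ => A * (B * r ^ k) ^ k) atTop (𝓝 0) := by
  have h2 : Tendsto (fun k : ℕ => B * r ^ k) atTop (𝓝 0) := by
    simpa using (tendsto_pow_atTop_nhds_zero_of_lt_one h0 h1).const_mul B
  have h3 : ∀ᶠ k : ℕ in atTop, B * r ^ k ≤ 1 / 2 :=
    (h2.eventually (gt_mem_nhds (by norm_num : (0 : ℝ) < 1 / 2))).mono fun k hk => hk.le
  have h4 : Tendsto (fun k : ℕ => A * (1 / 2 : ℝ) ^ k) atTop (𝓝 0) := by
    simpa using (tendsto_pow_atTop_nhds_zero_of_lt_one (by norm_num : (0 : ℝ) ≤ 1 / 2)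
      (by norm_num)).const_mul A
  refine squeeze_zero' (Eventually.of_forall fun k => by positivity) ?_ h4
  filter_upwards [h3] with k hk
  gcongr

lemma tail {z : Cn n} (hz : z ∈ Dom i0 i1 i2) {ε : ℝ} (hε : 0 < ε) :
    ∃ K : ℕ, ∀ᶠ y in 𝓝 z, ∀ k, K ≤ k → ‖fam i0 i1 i2 (some (Sum.inr k)) y‖ ≤ ε := by
  set r := (1 + ‖z i2‖) / 2 with hr
  have hr0 : 0 ≤ r := by positivity
  have hr1 : r < 1 := by have := hz.1; rw [hr]; linarith
  have hr2 : ‖z i2‖ < r := by have := hz.1; rw [hr]; linarith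
  have hc : ∀ j : Fin n, Continuous fun z : Cn n => ‖z j‖ := fun j =>
    ((differentiable_euclidean (𝕜 := ℂ)).mp differentiable_id j).continuous.norm
  have hev := tail_tendsto hr0 hr1 (Real.exp 3) ((Real.exp 3) ^ 2) (by positivity) (by positivity)
  obtain ⟨K, hK⟩ := eventually_atTop.mp
    (hev.eventually (gt_mem_nhds (by positivity : (0 : ℝ) < ε * Real.exp 1)))
  refine ⟨K, ?_⟩
  filter_upwards [(hc i2).continuousAt.eventually (gt_mem_nhds hr2),
    (hc i1).continuousAt.eventually (gt_mem_nhds (hz.2.1 i1)),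
    (hc i0).continuousAt.eventually (gt_mem_nhds (hz.2.1 i0))] with y h2 h1 h0 k hk
  rw [norm_inr, div_le_iff₀ (Real.exp_pos 1)]
  refine le_trans ?_ (hK k hk).le
  have e1 : ((Real.exp 3) ^ 2 * r ^ k) ^ k = (Real.exp 3) ^ (2 * k) * r ^ (k ^ 2) := by
    rw [mul_pow, ← pow_mul, ← pow_mul]; ring_nf
  rw [e1, ← mul_assoc]
  have h0' := h0.le
  have h1' := h1.le
  have h2' := h2.le
  gcongr

lemma fam_eq {z : Cn n} (hz : z ∈ Dom i0 i1 i2) {ε : ℝ} (hε : 0 < ε) :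
    ∀ᶠ y in 𝓝 z, ∀ i, |‖fam i0 i1 i2 i y‖ - ‖fam i0 i1 i2 i z‖| ≤ ε := by
  have hone : ∀ i, ∀ᶠ y in 𝓝 z, |‖fam i0 i1 i2 i y‖ - ‖fam i0 i1 i2 i z‖| ≤ ε := by
    intro i
    have h1 : ContinuousAt (fun y => ‖fam i0 i1 i2 i y‖) z :=
      (fam_diff i0 i1 i2 i).continuous.norm.continuousAt
    rw [Metric.continuousAt_iff'] at h1
    filter_upwards [h1 ε hε] with y hy
    rw [Real.dist_eq] at hy
    exact hy.le
  obtain ⟨K, hK⟩ := tail i0 i1 i2 hz hε
  have hfin : ∀ᶠ y in 𝓝 z, ∀ k ∈ Finset.range K,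
      |‖fam i0 i1 i2 (some (Sum.inr k)) y‖ - ‖fam i0 i1 i2 (some (Sum.inr k)) z‖| ≤ ε := by
    rw [Finset.eventually_all]
    exact fun k _ => hone _
  have hfin2 : ∀ᶠ y in 𝓝 z, ∀ j : Fin n,
      |‖fam i0 i1 i2 (some (Sum.inl j)) y‖ - ‖fam i0 i1 i2 (some (Sum.inl j)) z‖| ≤ ε := by
    rw [eventually_all]
    exact fun j => hone _
  filter_upwards [hone none, hfin, hfin2, hK] with y h1 h2 h3 h4 i
  match i with
  | none => exact h1
  | some (Sum.inl j) => exact h3 j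
  | some (Sum.inr k) =>
    by_cases hk : k < K
    · exact h2 k (Finset.mem_range.mpr hk)
    · push Not at hk
      have a1 := h4 k hk
      have a2 := hK.self_of_nhds k hk
      have a3 := norm_nonneg (fam i0 i1 i2 (some (Sum.inr k)) y)
      have a4 := norm_nonneg (fam i0 i1 i2 (some (Sum.inr k)) z)
      rw [abs_le]
      constructor <;> linarith

lemma fam_sup {z : Cn n} (hz : z ∈ Dom i0 i1 i2) :
    ∃ q < 1, ∀ i, ‖fam i0 i1 i2 i z‖ ≤ q := by
  classical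
  obtain ⟨K, hK⟩ := tail i0 i1 i2 hz (by norm_num : (0 : ℝ) < 1 / 2)
  have hK' := hK.self_of_nhds
  set S : Finset (Option (Fin n ⊕ ℕ)) := insert none
    ((Finset.univ.image fun j : Fin n => some (Sum.inl j)) ∪
      ((Finset.range K).image fun k => some (Sum.inr k))) with hS
  obtain ⟨i', -, hi'⟩ := S.exists_max_image (fun i => ‖fam i0 i1 i2 i z‖) ⟨none, by simp [hS]⟩
  have hz' := hz
  rw [dom_eq] at hz'
  refine ⟨max (1 / 2) ‖fam i0 i1 i2 i' z‖, max_lt (by norm_num) (hz' i'), fun i => ?_⟩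
  match i with
  | none => exact (hi' none (by simp [hS])).trans (le_max_right _ _)
  | some (Sum.inl j) => exact (hi' _ (by simp [hS])).trans (le_max_right _ _)
  | some (Sum.inr k) =>
    by_cases hk : k < K
    · exact (hi' _ (by simp [hS, hk])).trans (le_max_right _ _)
    · push Not at hk
      exact (hK' k hk).trans (le_max_left _ _)

lemma dom_bounded : Bornology.IsBounded (Dom i0 i1 i2) := by
  rw [isBounded_iff_forall_norm_le]
  refine ⟨Real.sqrt (∑ _j : Fin n, (Real.exp 3) ^ 2), fun z hz => ?_⟩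
  rw [EuclideanSpace.norm_eq]
  refine Real.sqrt_le_sqrt (Finset.sum_le_sum fun j _ => ?_)
  have := (hz.2.1 j).le
  gcongr

theorem dom_pseudoconvex : IsPseudoconvex (Dom i0 i1 i2) :=
  pseudoconvex_of_family (fam i0 i1 i2) (fam_diff i0 i1 i2) _ (dom_eq i0 i1 i2)
    (fun _ hz _ hε => fam_eq i0 i1 i2 hz hε) (fun _ hz => fam_sup i0 i1 i2 hz)
    (dom_bounded i0 i1 i2)

lemma dom_open : IsOpen (Dom i0 i1 i2) := by
  rw [isOpen_iff_mem_nhds]
  intro z hz
  obtain ⟨q, hq, hq'⟩ := fam_sup i0 i1 i2 hz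
  filter_upwards [fam_eq i0 i1 i2 hz (by linarith : 0 < (1 - q) / 2)] with y hy
  rw [dom_eq]
  intro i
  have h1 := hy i
  rw [abs_le] at h1
  linarith [hq' i, h1.2]

lemma zero_mem : (0 : Cn n) ∈ Dom i0 i1 i2 := by
  refine ⟨by simp, fun j => by simpa using Real.exp_pos 3, fun k => ?_⟩
  simpa using Real.exp_pos 1

theorem dom_reinhardt : IsReinhardtDomain (Dom i0 i1 i2) := by
  refine ⟨dom_open i0 i1 i2, ?_, ?_⟩
  · have h : StarConvex ℝ 0 (Dom i0 i1 i2) := by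
      rw [starConvex_zero_iff]
      intro z hz a ha ha1
      refine dom_mono i0 i1 i2 hz fun j => ?_
      have : (a • z) j = a • z j := rfl
      rw [this, norm_smul, Real.norm_eq_abs, abs_of_nonneg ha]
      exact mul_le_of_le_one_left (norm_nonneg _) ha1
    exact (h.isPathConnected (zero_mem i0 i1 i2)).isConnected
  · intro z hz c hc
    refine dom_mono i0 i1 i2 hz fun j => ?_
    simp [hc j]

end Pool.Agent.X106.RK
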